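import Pool.Agent.W_MP_1da119_pr.Basic

set_option autoImplicit false

open MeasureTheory Filter Topology ProbabilityTheory

namespace Pool.Agent.W_MP_1da119_pr

/-- The law of one step from `x`. -/
noncomputable def stepMeasure (f : ℝ) (x : ℕ × ℕ) : Measure (ℕ × ℕ) :=
  ENNReal.ofReal (f * accept x (forward x)) • Measure.dirac (forward x)
    + ENNReal.ofReal ((1 - f) * accept x (backward x)) • Measure.dirac (backward x)
    + ENNReal.ofReal (f * (1 - accept x (forward x)) + (1 - f) * (1 - accept x (backward x)))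
      • Measure.dirac x

lemma isProbabilityMeasure_stepMeasure {f : ℝ} (h0 : 0 ≤ f) (h1 : f ≤ 1) (x : ℕ × ℕ) :
    IsProbabilityMeasure (stepMeasure f x) := by
  constructor
  have b3 : 0 ≤ 1 - f := by linarith
  have hs := stay_nonneg h0 h1 x
  have a1 := accept_nonneg x (forward x)
  have a2 := accept_nonneg x (backward x)
  unfold stepMeasure
  simp only [Measure.coe_add, Measure.coe_smul, Pi.add_apply, Pi.smul_apply, measure_univ,
    smul_eq_mul, mul_one]
  rw [← ENNReal.ofReal_add (by positivity) (by positivity),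
    ← ENNReal.ofReal_add (by positivity) hs]
  rw [← ENNReal.ofReal_one]
  congr 1
  ring

lemma stepMeasure_singleton {f : ℝ} (h0 : 0 ≤ f) (h1 : f ≤ 1) (x y : ℕ × ℕ) :
    stepMeasure f x {y} = ENNReal.ofReal (stepProb f x y) := by
  have b3 : 0 ≤ 1 - f := by linarith
  have hs := stay_nonneg h0 h1 x
  have a1 := accept_nonneg x (forward x)
  have a2 := accept_nonneg x (backward x)
  have hdir : ∀ (c : ℝ) (z : ℕ × ℕ), ENNReal.ofReal c * (Measure.dirac z : Measure (ℕ × ℕ)) {y}
      = ENNReal.ofReal (if y = z then c else 0) := by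
    intro c z
    rw [Measure.dirac_apply' _ (measurableSet_singleton y)]
    by_cases h : y = z
    · rw [if_pos h, Set.indicator_of_mem (Set.mem_singleton_iff.2 h.symm)]
      simp
    · rw [if_neg h, Set.indicator_of_notMem (fun h' => h (Set.mem_singleton_iff.1 h').symm)]
      simp
  have n1 : 0 ≤ (if y = forward x then f * accept x (forward x) else 0) := by
    split_ifs <;> positivity
  have n2 : 0 ≤ (if y = backward x then (1 - f) * accept x (backward x) else 0) := by
    split_ifs <;> positivity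
  have n3 : 0 ≤ (if y = x then f * (1 - accept x (forward x))
      + (1 - f) * (1 - accept x (backward x)) else 0) := by
    split_ifs
    · exact hs
    · exact le_rfl
  unfold stepMeasure stepProb
  simp only [Measure.coe_add, Measure.coe_smul, Pi.add_apply, Pi.smul_apply, smul_eq_mul]
  rw [hdir, hdir, hdir, ← ENNReal.ofReal_add n1 n2, ← ENNReal.ofReal_add (add_nonneg n1 n2) n3]

/-- The kernel of one step. -/
noncomputable def stepKernel (F : ℕ × ℕ → ℝ) : Kernel (ℕ × ℕ) (ℕ × ℕ) :=
  Kernel.ofFunOfCountable (fun x => stepMeasure (F x) x)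

/-- The kernel of step `n + 1` as a function of the whole past. -/
noncomputable def pastKernel (F : ℕ → ℕ × ℕ → ℝ) (n : ℕ) :
    Kernel (Π _ : Finset.Iic n, ℕ × ℕ) (ℕ × ℕ) :=
  (stepKernel (F (n + 1))).comap (fun z => z ⟨n, Finset.mem_Iic.2 le_rfl⟩) (by fun_prop)

lemma pastKernel_apply (F : ℕ → ℕ × ℕ → ℝ) (n : ℕ) (z : Π _ : Finset.Iic n, ℕ × ℕ) :
    pastKernel F n z = stepMeasure (F (n + 1) (z ⟨n, Finset.mem_Iic.2 le_rfl⟩))
      (z ⟨n, Finset.mem_Iic.2 le_rfl⟩) := rfl

theorem exists_walk (F : ℕ → ℕ × ℕ → ℝ) (hF0 : ∀ t x, 0 ≤ F t x) (hF1 : ∀ t x, F t x ≤ 1) :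
    ∃ (Ω : Type) (_ : MeasurableSpace Ω) (μ : Measure Ω) (X : ℕ → Ω → ℕ × ℕ),
      IsProbabilityMeasure μ ∧ IsWalk μ (fun t x y => stepProb (F t x) x y) X := by
  have hmark : ∀ n, IsMarkovKernel (pastKernel F n) := by
    intro n
    refine ⟨fun z => ?_⟩
    rw [pastKernel_apply]
    exact isProbabilityMeasure_stepMeasure (hF0 _ _) (hF1 _ _) _
  set x₀ : Π _ : Finset.Iic 0, ℕ × ℕ := fun _ => (1, 1) with hx₀
  set μ : Measure (ℕ → ℕ × ℕ) := Kernel.traj (X := fun _ => ℕ × ℕ) (pastKernel F) 0 x₀ with hμ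
  refine ⟨ℕ → ℕ × ℕ, inferInstance, μ, fun t ω => ω t, inferInstance, ?_, ?_, ?_⟩
  · intro t
    exact measurable_pi_apply t
  · have h1 : μ.map (Preorder.frestrictLe 0) = Measure.dirac x₀ := by
      rw [hμ, Kernel.traj_map_frestrictLe_apply, Kernel.partialTraj_self, Kernel.id_apply]
    have h2 : ∀ᵐ z ∂(μ.map (Preorder.frestrictLe 0)), z = x₀ := by
      rw [h1, ae_dirac_eq]
      exact rfl
    have h3 := ae_of_ae_map (by fun_prop) h2
    filter_upwards [h3] with ω hω
    have := congrFun hω ⟨0, Finset.mem_Iic.2 le_rfl⟩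
    exact this
  · intro t path y
    set z₀ : Π _ : Finset.Iic t, ℕ × ℕ := fun i => path i with hz₀
    have hpre : {ω : ℕ → ℕ × ℕ | (∀ s ≤ t, ω s = path s) ∧ ω (t + 1) = y}
        = (fun x : ℕ → ℕ × ℕ => (Preorder.frestrictLe t x, x (t + 1))) ⁻¹' ({z₀} ×ˢ {y}) := by
      ext ω
      simp only [Set.mem_preimage, Set.mem_prod, Set.mem_singleton_iff, Set.mem_ofPred_eq]
      constructor
      · rintro ⟨h1, h2⟩
        refine ⟨?_, h2⟩
        funext i
        exact h1 i (Finset.mem_Iic.1 i.2)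
      · rintro ⟨h1, h2⟩
        refine ⟨?_, h2⟩
        intro s hs
        exact congrFun h1 ⟨s, Finset.mem_Iic.2 hs⟩
    have hpre2 : {ω : ℕ → ℕ × ℕ | ∀ s ≤ t, ω s = path s}
        = (Preorder.frestrictLe t) ⁻¹' ({z₀} : Set (Π _ : Finset.Iic t, ℕ × ℕ)) := by
      ext ω
      simp only [Set.mem_preimage, Set.mem_singleton_iff, Set.mem_ofPred_eq]
      constructor
      · intro h1
        funext i
        exact h1 i (Finset.mem_Iic.1 i.2)
      · intro h1 s hs
        exact congrFun h1 ⟨s, Finset.mem_Iic.2 hs⟩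
    have e1 : μ {ω : ℕ → ℕ × ℕ | (∀ s ≤ t, ω s = path s) ∧ ω (t + 1) = y}
        = pastKernel F t z₀ {y} * μ {ω : ℕ → ℕ × ℕ | ∀ s ≤ t, ω s = path s} := by
      rw [hpre, hpre2, ← Measure.map_apply (by fun_prop) (measurableSet_singleton z₀),
        ← Measure.map_apply (by fun_prop)
          ((measurableSet_singleton z₀).prod (measurableSet_singleton y)), hμ,
        Kernel.traj_map_frestrictLe_apply,
        ← Kernel.partialTraj_compProd_eq_map_traj (Nat.zero_le t),
        Measure.compProd_apply_prod (measurableSet_singleton z₀) (measurableSet_singleton y),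
        lintegral_singleton]
    have e2 : pastKernel F t z₀ {y} = ENNReal.ofReal (stepProb (F (t + 1) (path t)) (path t) y) := by
      rw [pastKernel_apply, stepMeasure_singleton (hF0 _ _) (hF1 _ _)]
    rw [Measure.real, Measure.real, e1, e2, ENNReal.toReal_mul,
      ENNReal.toReal_ofReal (stepProb_nonneg (hF0 _ _) (hF1 _ _) _ _), mul_comm]

end Pool.Agent.W_MP_1da119_pr
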