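import Pool.Agent.W_MP_1da119_pr.Defs

set_option autoImplicit false

open MeasureTheory Filter Topology

namespace Pool.Agent.W_MP_1da119_pr

/-! ### The weights -/

lemma weight_nonneg (x : ℕ × ℕ) : 0 ≤ weight x := by
  unfold weight
  split_ifs <;> positivity

lemma weight_diag {j : ℕ} (hj : 1 ≤ j) : weight (j, j) = ((j : ℝ) ^ 2)⁻¹ := by
  unfold weight stair
  rw [if_pos]
  exact ⟨hj, Or.inl rfl⟩

lemma weight_off {j : ℕ} (hj : 1 ≤ j) : weight (j + 1, j) = ((j : ℝ) ^ 2)⁻¹ := by
  unfold weight stair
  rw [if_pos]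
  exact ⟨hj, Or.inr rfl⟩

lemma weight_of_notMem {x : ℕ × ℕ} (hx : x ∉ stair) : weight x = 0 := by
  unfold weight
  rw [if_neg hx]

lemma weight_pos {x : ℕ × ℕ} (hx : x ∈ stair) : 0 < weight x := by
  unfold weight
  rw [if_pos hx]
  have : 1 ≤ x.2 := hx.1
  have : (0 : ℝ) < x.2 := by exact_mod_cast this
  positivity

/-- The stair, parametrised. -/
def param : ℕ ⊕ ℕ → ℕ × ℕ
  | Sum.inl j => (j, j)
  | Sum.inr j => (j + 1, j)

lemma param_injective : Function.Injective param := by
  rintro (a | a) (b | b) h <;> simp [param] at h <;> (simp; omega)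

lemma summable_weight : Summable weight := by
  have h0 : ∀ x ∉ Set.range param, weight x = 0 := by
    intro x hx
    apply weight_of_notMem
    rintro ⟨_, h | h⟩
    · exact hx ⟨Sum.inl x.2, Prod.ext h.symm rfl⟩
    · exact hx ⟨Sum.inr x.2, Prod.ext h.symm rfl⟩
  rw [← param_injective.summable_iff h0]
  have hs : Summable (fun j : ℕ => ((j : ℝ) ^ 2)⁻¹) := by
    exact Real.summable_nat_pow_inv.mpr (by norm_num : 1 < 2)
  have hb : ∀ x : ℕ × ℕ, weight x ≤ ((x.2 : ℝ) ^ 2)⁻¹ := by
    intro x
    unfold weight
    split_ifs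
    · exact le_rfl
    · positivity
  refine Summable.sum _ ?_ ?_
  · exact Summable.of_nonneg_of_le (fun j => weight_nonneg _) (fun j => hb (j, j)) hs
  · exact Summable.of_nonneg_of_le (fun j => weight_nonneg _) (fun j => hb (j + 1, j)) hs

lemma total_pos : 0 < ∑' y, weight y :=
  summable_weight.tsum_pos weight_nonneg (1, 1)
    (weight_pos (show (1, 1) ∈ stair from ⟨le_rfl, Or.inl rfl⟩))

lemma target_nonneg (x : ℕ × ℕ) : 0 ≤ target x := div_nonneg (weight_nonneg x) total_pos.le

lemma summable_target : Summable target := summable_weight.div_const _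

lemma tsum_target : ∑' y, target y = 1 := by
  unfold target
  rw [tsum_div_const]
  exact div_self total_pos.ne'

lemma target_pos {x : ℕ × ℕ} (hx : x ∈ stair) : 0 < target x := div_pos (weight_pos hx) total_pos

lemma target_of_notMem {x : ℕ × ℕ} (hx : x ∉ stair) : target x = 0 := by
  unfold target
  rw [weight_of_notMem hx, zero_div]

lemma accept_eq (x y : ℕ × ℕ) : accept x y = weight y / (weight y + weight x) := by
  unfold accept target
  rw [← add_div, div_div_div_cancel_right₀ total_pos.ne']

lemma accept_nonneg (x y : ℕ × ℕ) : 0 ≤ accept x y := by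
  unfold accept
  have := target_nonneg x
  have := target_nonneg y
  positivity

lemma accept_le_one (x y : ℕ × ℕ) : accept x y ≤ 1 := by
  unfold accept
  have := target_nonneg x
  have := target_nonneg y
  apply div_le_one_of_le₀ <;> linarith

/-! ### The neighbours -/

lemma forward_diag (j : ℕ) : forward (j, j) = (j + 1, j) := by simp [forward]

lemma forward_off (j : ℕ) : forward (j + 1, j) = (j + 1, j + 1) := by simp [forward]

lemma backward_diag (j : ℕ) : backward (j, j) = (j, j - 1) := by simp [backward]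

lemma backward_off (j : ℕ) : backward (j + 1, j) = (j, j) := by simp [backward]

lemma forward_mem {x : ℕ × ℕ} (hx : x ∈ stair) : forward x ∈ stair := by
  obtain ⟨i, j⟩ := x
  obtain ⟨h1, h | h⟩ := hx
  · simp only at h h1
    subst h
    rw [forward_diag]
    exact ⟨h1, Or.inr rfl⟩
  · simp only at h h1
    subst h
    rw [forward_off]
    exact ⟨by simp, Or.inl rfl⟩

lemma backward_mem {x : ℕ × ℕ} (hx : x ∈ stair) (hx1 : x ≠ (1, 1)) : backward x ∈ stair := by
  obtain ⟨i, j⟩ := x
  obtain ⟨h1, h | h⟩ := hx
  · simp only at h h1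
    subst h
    rw [backward_diag]
    have : i ≠ 1 := by rintro rfl; exact hx1 rfl
    refine ⟨?_, Or.inr ?_⟩ <;> simp only <;> omega
  · simp only at h h1
    subst h
    rw [backward_off]
    exact ⟨h1, Or.inl rfl⟩

lemma accept_backward_one : accept (1, 1) (backward (1, 1)) = 0 := by
  have : backward (1, 1) ∉ stair := by
    rw [backward_diag]
    rintro ⟨h, _⟩
    simp at h
  rw [accept_eq, weight_of_notMem this]
  simp

lemma sum_forward (x : ℕ × ℕ) :
    (forward x).1 + (forward x).2 = x.1 + x.2 + 1 := by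
  unfold forward
  split_ifs <;> simp <;> omega

lemma sum_backward {x : ℕ × ℕ} (hx : x ∈ stair) :
    (backward x).1 + (backward x).2 + 1 = x.1 + x.2 := by
  obtain ⟨h1, h⟩ := hx
  unfold backward
  split_ifs with hh <;> simp only <;> omega

lemma accept_forward_diag {j : ℕ} (hj : 1 ≤ j) : accept (j, j) (forward (j, j)) = 1 / 2 := by
  rw [forward_diag, accept_eq, weight_diag hj, weight_off hj]
  have : (0 : ℝ) < j := by exact_mod_cast hj
  field_simp
  norm_num

lemma accept_backward_off {j : ℕ} (hj : 1 ≤ j) :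
    accept (j + 1, j) (backward (j + 1, j)) = 1 / 2 := by
  rw [backward_off, accept_eq, weight_diag hj, weight_off hj]
  have : (0 : ℝ) < j := by exact_mod_cast hj
  field_simp
  norm_num

lemma accept_forward_off {j : ℕ} (hj : 1 ≤ j) :
    accept (j + 1, j) (forward (j + 1, j)) = (j : ℝ) ^ 2 / ((j : ℝ) ^ 2 + ((j : ℝ) + 1) ^ 2) := by
  rw [forward_off, accept_eq, weight_diag (by omega), weight_off hj]
  have : (0 : ℝ) < j := by exact_mod_cast hj
  push_cast
  field_simp

lemma accept_backward_diag {j : ℕ} (hj : 1 ≤ j) :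
    accept (j, j) (backward (j, j)) ≤ (j : ℝ) ^ 2 / ((j : ℝ) ^ 2 + ((j : ℝ) - 1) ^ 2) := by
  have hj0 : (0 : ℝ) < j := by exact_mod_cast hj
  rcases Nat.eq_or_lt_of_le hj with h | h
  · subst h
    rw [accept_backward_one]
    positivity
  · obtain ⟨k, rfl⟩ : ∃ k, j = k + 1 := ⟨j - 1, by omega⟩
    rw [backward_diag, accept_eq]
    simp only [Nat.add_sub_cancel]
    rw [weight_diag hj, weight_off (by omega)]
    have : (0 : ℝ) < k := by exact_mod_cast (by omega : 0 < k)
    push_cast
    have h2 : ((k : ℝ) + 1 - 1) = k := by ring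
    rw [h2]
    apply le_of_eq
    field_simp

/-- The comparison of the acceptance probabilities of the two proposals. -/
lemma accept_compare {x : ℕ × ℕ} (hx : x ∈ stair) :
    accept x (backward x) * ((x.1 : ℝ) + x.2 - 1) ≤ accept x (forward x) * ((x.1 : ℝ) + x.2 + 3) := by
  obtain ⟨i, j⟩ := x
  obtain ⟨h1, h | h⟩ := hx
  · simp only at h h1
    subst h
    have hj0 : (1 : ℝ) ≤ i := by exact_mod_cast h1
    rw [accept_forward_diag h1]
    have h2 := accept_backward_diag h1
    simp only
    have h3 : (0 : ℝ) < (i : ℝ) ^ 2 + ((i : ℝ) - 1) ^ 2 := by positivity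
    calc accept (i, i) (backward (i, i)) * ((i : ℝ) + i - 1)
        ≤ (i : ℝ) ^ 2 / ((i : ℝ) ^ 2 + ((i : ℝ) - 1) ^ 2) * ((i : ℝ) + i - 1) := by
          apply mul_le_mul_of_nonneg_right h2
          linarith
      _ ≤ 1 / 2 * ((i : ℝ) + i + 3) := by
          rw [div_mul_eq_mul_div, div_le_iff₀ h3]
          nlinarith
  · simp only at h h1
    subst h
    have hj0 : (1 : ℝ) ≤ j := by exact_mod_cast h1
    rw [accept_forward_off h1, accept_backward_off h1]
    have h3 : (0 : ℝ) < (j : ℝ) ^ 2 + ((j : ℝ) + 1) ^ 2 := by positivity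
    push_cast
    rw [div_mul_eq_mul_div (_ : ℝ) (_ : ℝ) ((j : ℝ) + 1 + j + 3), le_div_iff₀ h3]
    nlinarith [mul_nonneg (by linarith : (0 : ℝ) ≤ j) (by linarith : (0 : ℝ) ≤ j - 1),
      mul_nonneg (mul_nonneg (by linarith : (0 : ℝ) ≤ j) (by linarith : (0 : ℝ) ≤ j))
        (by linarith : (0 : ℝ) ≤ j - 1)]

lemma accept_forward_ge {x : ℕ × ℕ} (hx : x ∈ stair) : 1 / 5 ≤ accept x (forward x) := by
  obtain ⟨i, j⟩ := x
  obtain ⟨h1, h | h⟩ := hx
  · simp only at h h1
    subst h
    rw [accept_forward_diag h1]
    norm_num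
  · simp only at h h1
    subst h
    have hj0 : (1 : ℝ) ≤ j := by exact_mod_cast h1
    rw [accept_forward_off h1]
    have h3 : (0 : ℝ) < (j : ℝ) ^ 2 + ((j : ℝ) + 1) ^ 2 := by positivity
    rw [div_le_div_iff₀ (by norm_num) h3]
    nlinarith

/-! ### One-step probabilities -/

lemma stay_nonneg {f : ℝ} (h0 : 0 ≤ f) (h1 : f ≤ 1) (x : ℕ × ℕ) :
    0 ≤ f * (1 - accept x (forward x)) + (1 - f) * (1 - accept x (backward x)) := by
  have a1 := accept_le_one x (forward x)
  have a2 := accept_le_one x (backward x)
  have b1 : 0 ≤ 1 - accept x (forward x) := by linarith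
  have b2 : 0 ≤ 1 - accept x (backward x) := by linarith
  have b3 : 0 ≤ 1 - f := by linarith
  positivity

lemma stepProb_nonneg {f : ℝ} (h0 : 0 ≤ f) (h1 : f ≤ 1) (x y : ℕ × ℕ) :
    0 ≤ stepProb f x y := by
  unfold stepProb
  have b3 : 0 ≤ 1 - f := by linarith
  have := stay_nonneg h0 h1 x
  have := accept_nonneg x (forward x)
  have := accept_nonneg x (backward x)
  have c1 : (0:ℝ) ≤ if y = forward x then f * accept x (forward x) else 0 := by
    split_ifs <;> positivity
  have c2 : (0:ℝ) ≤ if y = backward x then (1 - f) * accept x (backward x) else 0 := by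
    split_ifs <;> positivity
  have c3 : (0:ℝ) ≤ if y = x then f * (1 - accept x (forward x)) +
    (1 - f) * (1 - accept x (backward x)) else 0 := by
    split_ifs <;> positivity
  linarith

/-- The action of one step on functions. -/
lemma tsum_stepProb_mul {f : ℝ} (h0 : 0 ≤ f) (h1 : f ≤ 1) (x : ℕ × ℕ) (g : ℕ × ℕ → ENNReal) :
    ∑' y, ENNReal.ofReal (stepProb f x y) * g y
      = ENNReal.ofReal (f * accept x (forward x)) * g (forward x)
        + ENNReal.ofReal ((1 - f) * accept x (backward x)) * g (backward x)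
        + ENNReal.ofReal (f * (1 - accept x (forward x)) + (1 - f) * (1 - accept x (backward x)))
          * g x := by
  have b3 : 0 ≤ 1 - f := by linarith
  have hs := stay_nonneg h0 h1 x
  have a1 := accept_nonneg x (forward x)
  have a2 := accept_nonneg x (backward x)
  have key : ∀ y, ENNReal.ofReal (stepProb f x y) * g y =
      (if y = forward x then ENNReal.ofReal (f * accept x (forward x)) * g (forward x) else 0)
      + (if y = backward x then ENNReal.ofReal ((1 - f) * accept x (backward x)) * g (backward x)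
          else 0)
      + (if y = x then ENNReal.ofReal (f * (1 - accept x (forward x))
          + (1 - f) * (1 - accept x (backward x))) * g x else 0) := by
    intro y
    unfold stepProb
    rw [ENNReal.ofReal_add, ENNReal.ofReal_add, add_mul, add_mul]
    · congr 1
      · congr 1
        · split_ifs with h
          · rw [h]
          · simp
        · split_ifs with h
          · rw [h]
          · simp
      · split_ifs with h
        · rw [h]
        · simp
    · split_ifs <;> positivity
    · split_ifs <;> positivity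
    · have : (0:ℝ) ≤ (if y = forward x then f * accept x (forward x) else 0) := by
        split_ifs <;> positivity
      have : (0:ℝ) ≤ (if y = backward x then (1 - f) * accept x (backward x) else 0) := by
        split_ifs <;> positivity
      positivity
    · split_ifs <;> positivity
  simp_rw [key]
  rw [ENNReal.tsum_add, ENNReal.tsum_add]
  simp [tsum_ite_eq]

end Pool.Agent.W_MP_1da119_pr
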