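import Mathlib

/-!
# The random walk on stairs: definitions

The state space is `stair = {(i, j) : 1 ≤ j, i = j or i = j + 1}`, the target probability is
`target (i, j) ∝ j ^ (-2)` on it and `0` off it, and the acceptance probability of a proposed
move from `x` to `y` is `target y / (target y + target x)`.
-/

set_option autoImplicit false

open MeasureTheory Filter

namespace Pool.Agent.W_MP_1da119_pr

/-- The stair: the pairs `(i, j)` with `j ≥ 1` and `i = j` or `i = j + 1`. -/
def stair : Set (ℕ × ℕ) := {x | 1 ≤ x.2 ∧ (x.1 = x.2 ∨ x.1 = x.2 + 1)}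

open Classical in
/-- The unnormalised target: `j ^ (-2)` at a point `(i, j)` of the stair, and `0` elsewhere. -/
noncomputable def weight (x : ℕ × ℕ) : ℝ := if x ∈ stair then ((x.2 : ℝ) ^ 2)⁻¹ else 0

/-- The target probability: `weight`, divided by its total mass. -/
noncomputable def target (x : ℕ × ℕ) : ℝ := weight x / ∑' y, weight y

/-- The probability of accepting a proposed move from `x` to `y`. -/
noncomputable def accept (x y : ℕ × ℕ) : ℝ := target y / (target y + target x)

/-- The forward neighbour: `(j + 1, j)` for `x = (j, j)`, and `(j + 1, j + 1)` for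
`x = (j + 1, j)`. -/
def forward (x : ℕ × ℕ) : ℕ × ℕ := if x.1 = x.2 then (x.1 + 1, x.2) else (x.1, x.2 + 1)

/-- The backward neighbour: `(j, j - 1)` for `x = (j, j)`, and `(j, j)` for `x = (j + 1, j)`.
(For `x = (1, 1)` it is `(1, 0)`, which is not on the stair.) -/
def backward (x : ℕ × ℕ) : ℕ × ℕ := if x.1 = x.2 then (x.1, x.2 - 1) else (x.1 - 1, x.2)

/-- The probability of moving in one step from `x` to `y` when the forward neighbour of `x` is
proposed with probability `f`, the backward neighbour with probability `1 - f`, and the proposed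
move is then made with the probability given by `accept` and not made otherwise. -/
noncomputable def stepProb (f : ℝ) (x y : ℕ × ℕ) : ℝ :=
  (if y = forward x then f * accept x (forward x) else 0)
    + (if y = backward x then (1 - f) * accept x (backward x) else 0)
    + (if y = x then f * (1 - accept x (forward x)) + (1 - f) * (1 - accept x (backward x)) else 0)

/-- `X` is a Markov chain on `ℕ × ℕ` started at `(1, 1)` which, given its path up to time `t`,
moves at step `t + 1` from its current state `x` to `y` with probability `K (t + 1) x y`. -/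
structure IsWalk {Ω : Type*} [MeasurableSpace Ω] (μ : Measure Ω)
    (K : ℕ → ℕ × ℕ → ℕ × ℕ → ℝ) (X : ℕ → Ω → ℕ × ℕ) : Prop where
  measurable : ∀ t, Measurable (X t)
  start : ∀ᵐ ω ∂μ, X 0 ω = (1, 1)
  step : ∀ (t : ℕ) (path : ℕ → ℕ × ℕ) (y : ℕ × ℕ),
    μ.real {ω | (∀ s ≤ t, X s ω = path s) ∧ X (t + 1) ω = y}
      = μ.real {ω | ∀ s ≤ t, X s ω = path s} * K (t + 1) (path t) y

end Pool.Agent.W_MP_1da119_pr
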