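import Pool.Agent.W_MP_1da119_pr.Basic

set_option autoImplicit false

open MeasureTheory Filter Topology

namespace Pool.Agent.W_MP_1da119_pr

universe u

variable {Ω : Type u} [MeasurableSpace Ω] {μ : Measure Ω}
  {K : ℕ → ℕ × ℕ → ℕ × ℕ → ℝ} {X : ℕ → Ω → ℕ × ℕ}

/-- The path through `z` during the first `t` steps and at `x` afterwards. -/
def extend {t : ℕ} (z : Fin t → ℕ × ℕ) (x : ℕ × ℕ) (s : ℕ) : ℕ × ℕ :=
  if h : s < t then z ⟨s, h⟩ else x

lemma IsWalk.measurableSet_eq (h : IsWalk μ K X) (t : ℕ) (x : ℕ × ℕ) :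
    MeasurableSet {ω | X t ω = x} := h.measurable t (measurableSet_singleton x)

lemma IsWalk.measurableSet_path (h : IsWalk μ K X) (t : ℕ) (path : ℕ → ℕ × ℕ) :
    MeasurableSet {ω | ∀ s ≤ t, X s ω = path s} := by
  have : {ω | ∀ s ≤ t, X s ω = path s} = ⋂ s, ⋂ _ : s ≤ t, {ω | X s ω = path s} := by
    ext ω
    simp
  rw [this]
  exact MeasurableSet.iInter fun s => MeasurableSet.iInter fun _ => h.measurableSet_eq s _

omit [MeasurableSpace Ω] in
lemma path_disjoint {t : ℕ} {x : ℕ × ℕ} {z z' : Fin t → ℕ × ℕ} (hz : z ≠ z') {ω : Ω}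
    (h1 : ∀ s ≤ t, X s ω = extend z x s) (h2 : ∀ s ≤ t, X s ω = extend z' x s) : False := by
  apply hz
  funext i
  have e1 := h1 i i.2.le
  have e2 := h2 i i.2.le
  simp only [extend, i.2, dif_pos] at e1 e2
  rw [← e1, ← e2]

lemma IsWalk.marginal [IsProbabilityMeasure μ] (h : IsWalk μ K X) (t : ℕ) (x y : ℕ × ℕ) :
    μ {ω | X t ω = x ∧ X (t + 1) ω = y}
      = μ {ω | X t ω = x} * ENNReal.ofReal (K (t + 1) x y) := by
  have hstep : ∀ z : Fin t → ℕ × ℕ,
      μ {ω | (∀ s ≤ t, X s ω = extend z x s) ∧ X (t + 1) ω = y}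
        = μ {ω | ∀ s ≤ t, X s ω = extend z x s} * ENNReal.ofReal (K (t + 1) x y) := by
    intro z
    have h1 := h.step t (extend z x) y
    have hx : extend z x t = x := by simp [extend]
    rw [hx] at h1
    have h2 : ENNReal.ofReal (μ.real {ω | (∀ s ≤ t, X s ω = extend z x s) ∧ X (t + 1) ω = y})
        = ENNReal.ofReal (μ.real {ω | ∀ s ≤ t, X s ω = extend z x s} * K (t + 1) x y) := by
      rw [h1]
    rw [ENNReal.ofReal_mul (by positivity), ofReal_measureReal, ofReal_measureReal] at h2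
    exact h2
  have hU1 : {ω | X t ω = x} = ⋃ z : Fin t → ℕ × ℕ, {ω | ∀ s ≤ t, X s ω = extend z x s} := by
    ext ω
    simp only [Set.mem_ofPred_eq, Set.mem_iUnion]
    constructor
    · intro hω
      refine ⟨fun i => X i ω, ?_⟩
      intro s hs
      unfold extend
      split_ifs with h'
      · rfl
      · have : s = t := by omega
        rw [this, hω]
    · rintro ⟨z, hz⟩
      rw [hz t le_rfl]
      simp [extend]
  have hU2 : {ω | X t ω = x ∧ X (t + 1) ω = y}
      = ⋃ z : Fin t → ℕ × ℕ, {ω | (∀ s ≤ t, X s ω = extend z x s) ∧ X (t + 1) ω = y} := by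
    ext ω
    have := Set.ext_iff.1 hU1 ω
    simp only [Set.mem_ofPred_eq, Set.mem_iUnion] at this ⊢
    rw [this]
    tauto
  rw [hU1, hU2, measure_iUnion, measure_iUnion, ← ENNReal.tsum_mul_right]
  · exact tsum_congr hstep
  · intro z z' hz
    rw [Function.onFun, Set.disjoint_left]
    intro ω h1 h2
    exact path_disjoint hz h1 h2
  · intro z
    exact h.measurableSet_path t _
  · intro z z' hz
    rw [Function.onFun, Set.disjoint_left]
    intro ω h1 h2
    exact path_disjoint hz h1.1 h2.1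
  · intro z
    exact (h.measurableSet_path t _).inter (h.measurableSet_eq (t + 1) y)

lemma IsWalk.succ [IsProbabilityMeasure μ] (h : IsWalk μ K X) (t : ℕ) (y : ℕ × ℕ) :
    μ {ω | X (t + 1) ω = y}
      = ∑' x, μ {ω | X t ω = x} * ENNReal.ofReal (K (t + 1) x y) := by
  have hU : {ω | X (t + 1) ω = y} = ⋃ x : ℕ × ℕ, {ω | X t ω = x ∧ X (t + 1) ω = y} := by
    ext ω
    simp
  rw [hU, measure_iUnion]
  · exact tsum_congr fun x => h.marginal t x y
  · intro z z' hz
    rw [Function.onFun, Set.disjoint_left]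
    rintro ω ⟨h1, -⟩ ⟨h2, -⟩
    exact hz (h1.symm.trans h2)
  · intro x
    exact (h.measurableSet_eq t x).inter (h.measurableSet_eq (t + 1) y)

lemma IsWalk.lintegral_eq (h : IsWalk μ K X) (t : ℕ) (g : ℕ × ℕ → ENNReal) :
    ∫⁻ ω, g (X t ω) ∂μ = ∑' x, μ {ω | X t ω = x} * g x := by
  rw [← lintegral_map (measurable_of_countable g) (h.measurable t), lintegral_countable']
  apply tsum_congr
  intro x
  rw [Measure.map_apply (h.measurable t) (measurableSet_singleton x), mul_comm]
  rfl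

lemma IsWalk.lintegral_succ [IsProbabilityMeasure μ] (h : IsWalk μ K X) (t : ℕ)
    (g : ℕ × ℕ → ENNReal) :
    ∫⁻ ω, g (X (t + 1) ω) ∂μ
      = ∑' x, μ {ω | X t ω = x} * ∑' y, ENNReal.ofReal (K (t + 1) x y) * g y := by
  rw [h.lintegral_eq (t + 1) g]
  have : ∀ y, μ {ω | X (t + 1) ω = y} * g y
      = ∑' x, μ {ω | X t ω = x} * (ENNReal.ofReal (K (t + 1) x y) * g y) := by
    intro y
    rw [h.succ t y, ← ENNReal.tsum_mul_right]
    simp_rw [mul_assoc]
  simp_rw [this]
  rw [ENNReal.tsum_comm]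
  simp_rw [ENNReal.tsum_mul_left]

/-! ### Walks on the stair -/

lemma IsWalk.notMem [IsProbabilityMeasure μ] {F : ℕ → ℕ × ℕ → ℝ}
    (h : IsWalk μ (fun t x y => stepProb (F t x) x y) X) (t : ℕ) {x : ℕ × ℕ} (hx : x ∉ stair) :
    μ {ω | X t ω = x} = 0 := by
  induction t generalizing x with
  | zero =>
    have h1 : x ≠ (1, 1) := by
      rintro rfl
      exact hx ⟨le_rfl, Or.inl rfl⟩
    refine measure_mono_null ?_ (ae_iff.1 h.start)
    intro ω hω hω1
    exact h1 ((show X 0 ω = x from hω).symm.trans hω1)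
  | succ t ih =>
    rw [h.succ t x, ENNReal.tsum_eq_zero]
    intro y
    by_cases hy : y ∈ stair
    · have h1 : x ≠ forward y := by
        rintro rfl
        exact hx (forward_mem hy)
      have h2 : x ≠ y := by
        rintro rfl
        exact hx hy
      have h3 : stepProb (F (t + 1) y) y x = 0 := by
        unfold stepProb
        rw [if_neg h1, if_neg h2]
        by_cases h4 : x = backward y
        · have h5 : y = (1, 1) := by
            by_contra h5
            exact hx (h4 ▸ backward_mem hy h5)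
          rw [h5, accept_backward_one]
          simp
        · rw [if_neg h4]
          simp
      simp only [h3]
      simp
    · simp [ih hy]

/-- One step of a Lyapunov function. -/
lemma IsWalk.lintegral_step [IsProbabilityMeasure μ] {F : ℕ → ℕ × ℕ → ℝ}
    (hF0 : ∀ t x, 0 ≤ F t x) (hF1 : ∀ t x, F t x ≤ 1)
    (h : IsWalk μ (fun t x y => stepProb (F t x) x y) X) (t : ℕ) (g : ℕ × ℕ → ℝ)
    (hg : ∀ x, 0 ≤ g x) (ρ : ℝ) (hρ : 0 ≤ ρ)
    (hstep : ∀ x ∈ stair, F (t + 1) x * accept x (forward x) * g (forward x)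
      + (1 - F (t + 1) x) * accept x (backward x) * g (backward x)
      + (F (t + 1) x * (1 - accept x (forward x))
        + (1 - F (t + 1) x) * (1 - accept x (backward x))) * g x ≤ ρ * g x) :
    ∫⁻ ω, ENNReal.ofReal (g (X (t + 1) ω)) ∂μ
      ≤ ENNReal.ofReal ρ * ∫⁻ ω, ENNReal.ofReal (g (X t ω)) ∂μ := by
  rw [h.lintegral_succ t (fun x => ENNReal.ofReal (g x)),
    h.lintegral_eq t (fun x => ENNReal.ofReal (g x)), ← ENNReal.tsum_mul_left]
  apply ENNReal.tsum_le_tsum
  intro x
  by_cases hx : x ∈ stair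
  · rw [mul_left_comm]
    gcongr
    rw [tsum_stepProb_mul (hF0 _ _) (hF1 _ _)]
    have a0 := accept_nonneg x (forward x)
    have b0 := accept_nonneg x (backward x)
    have c0 := stay_nonneg (hF0 (t + 1) x) (hF1 (t + 1) x) x
    have f0 := hF0 (t + 1) x
    have f1 : 0 ≤ 1 - F (t + 1) x := sub_nonneg.2 (hF1 (t + 1) x)
    rw [← ENNReal.ofReal_mul (by positivity), ← ENNReal.ofReal_mul (by positivity),
      ← ENNReal.ofReal_mul c0, ← ENNReal.ofReal_mul hρ,
      ← ENNReal.ofReal_add (mul_nonneg (by positivity) (hg _))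
        (mul_nonneg (by positivity) (hg _)),
      ← ENNReal.ofReal_add (add_nonneg (mul_nonneg (by positivity) (hg _))
        (mul_nonneg (by positivity) (hg _))) (mul_nonneg c0 (hg _))]
    exact ENNReal.ofReal_le_ofReal (hstep x hx)
  · rw [h.notMem t hx]
    simp

end Pool.Agent.W_MP_1da119_pr
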