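import Pool.Agent.W_MP_1da119_pr.Lyapunov
import Pool.Agent.W_MP_1da119_pr.Marginal

set_option autoImplicit false

open MeasureTheory Filter Topology

namespace Pool.Agent.W_MP_1da119_pr

universe u

/-! ### Phases -/

/-- The index of the phase containing time `t`, for the switching times `T`. -/
def phase (T : ℕ → ℕ) (t : ℕ) : ℕ := Nat.findGreatest (fun k => T k ≤ t) t

lemma phase_le {T : ℕ → ℕ} (h0 : T 0 = 0) (t : ℕ) : T (phase T t) ≤ t := by
  have : T 0 ≤ t := by omega
  exact Nat.findGreatest_spec (P := fun k => T k ≤ t) (Nat.zero_le t) this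

lemma lt_phase {T : ℕ → ℕ} (hT : StrictMono T) (t : ℕ) : t < T (phase T t + 1) := by
  by_contra hcon
  push Not at hcon
  have h1 : phase T t + 1 ≤ t := le_trans (hT.id_le _) hcon
  have h2 := Nat.le_findGreatest (P := fun k => T k ≤ t) h1 hcon
  have h3 : phase T t + 1 ≤ phase T t := h2
  omega

lemma phase_eq {T : ℕ → ℕ} (hT : StrictMono T) (h0 : T 0 = 0) {t k : ℕ} (h1 : T k ≤ t)
    (h2 : t < T (k + 1)) : phase T t = k := by
  have h3 := phase_le h0 t
  have h4 := lt_phase hT t
  have h5 : k < phase T t + 1 := hT.lt_iff_lt.1 (lt_of_le_of_lt h1 h4)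
  have h6 : phase T t < k + 1 := hT.lt_iff_lt.1 (lt_of_le_of_lt h3 h2)
  omega

lemma phase_mono {T : ℕ → ℕ} (hT : StrictMono T) (h0 : T 0 = 0) : Monotone (phase T) := by
  intro s t hst
  have h3 := phase_le h0 s
  have h4 := lt_phase hT t
  have h5 : phase T s < phase T t + 1 := hT.lt_iff_lt.1 (lt_of_le_of_lt h3 (by omega))
  omega

/-- The parameters: `8 + k` during phase `k`. -/
noncomputable def pars (T : ℕ → ℕ) (t : ℕ) : ℝ := 8 + (phase T (t - 1) : ℝ)

lemma pars_mono {T : ℕ → ℕ} (hT : StrictMono T) (h0 : T 0 = 0) : Monotone (pars T) := by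
  intro s t hst
  unfold pars
  have : phase T (s - 1) ≤ phase T (t - 1) := phase_mono hT h0 (by omega)
  have : (phase T (s - 1) : ℝ) ≤ phase T (t - 1) := by exact_mod_cast this
  linarith

lemma pars_tendsto {T : ℕ → ℕ} (hT : StrictMono T) (h0 : T 0 = 0) :
    Tendsto (pars T) atTop atTop := by
  apply tendsto_atTop_atTop_of_monotone (pars_mono hT h0)
  intro b
  obtain ⟨k, hk⟩ := exists_nat_ge b
  refine ⟨T k + 1, ?_⟩
  unfold pars
  have : phase T (T k + 1 - 1) = k := phase_eq hT h0 (by omega) (by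
    have : T k < T (k + 1) := hT (Nat.lt_succ_self k)
    omega)
  rw [this]
  linarith

/-- The bias in phase `k`. -/
noncomputable def bias (k : ℕ) : ℝ := 1 / 2 + 4 / (8 + (k : ℝ))

lemma bias_gt (k : ℕ) : 1 / 2 < bias k := by
  unfold bias
  have : 0 < 4 / (8 + (k : ℝ)) := by positivity
  linarith

lemma bias_le (k : ℕ) : bias k ≤ 1 := by
  unfold bias
  have : 4 / (8 + (k : ℝ)) ≤ 1 / 2 := by
    rw [div_le_div_iff₀ (by positivity) (by norm_num)]
    have : (0 : ℝ) ≤ k := by positivity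
    linarith
  linarith

/-- The choice of the switching times. -/
lemma exists_durations (v : ℕ → ℕ → ℝ) (ρ : ℕ → ℝ) (ε : ℕ → ℝ) (hρ0 : ∀ k, 0 < ρ k)
    (hρ1 : ∀ k, ρ k < 1) (hv0 : ∀ k n, 0 < v k n) (hv1 : ∀ k n, v k n ≤ 1)
    (hanti : ∀ k, Antitone (v k)) (hlim : ∀ k, Tendsto (v k) atTop (𝓝 0))
    (hε : ∀ k, 0 < ε k) (k : ℕ) :
    ∃ (d : ℕ) (C : ℝ), 0 < C ∧ (∀ n, v (k + 1) n ≤ ε k / 2 + C * v k n) ∧
      C * ρ k ^ (d + 1) ≤ ε k / 2 := by
  have hε2 : 0 < ε k / 2 := by have := hε k; linarith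
  obtain ⟨L, hL⟩ := ((hlim (k + 1)).eventually (gt_mem_nhds hε2)).exists_forall_of_atTop
  have hC : 0 < 1 / v k L := by have := hv0 k L; positivity
  have h2 : Tendsto (fun d : ℕ => (1 / v k L) * ρ k ^ (d + 1)) atTop (𝓝 ((1 / v k L) * 0)) := by
    apply Tendsto.const_mul
    exact (tendsto_pow_atTop_nhds_zero_of_lt_one (hρ0 k).le (hρ1 k)).comp (tendsto_add_atTop_nat 1)
  rw [mul_zero] at h2
  obtain ⟨d, hd⟩ := (h2.eventually (gt_mem_nhds hε2)).exists
  refine ⟨d, 1 / v k L, hC, ?_, hd.le⟩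
  intro n
  rcases le_total L n with h | h
  · have := hL n h
    have h3 : 0 ≤ 1 / v k L * v k n := by have := hv0 k n; positivity
    linarith
  · have h3 : 1 ≤ 1 / v k L * v k n := by
      rw [one_div, ← div_eq_inv_mul, one_le_div (hv0 k L)]
      exact hanti k h
    have := hv1 (k + 1) n
    linarith

/-- The main estimate: there are switching times for which every walk with the corresponding
parameters tends to infinity. -/
theorem exists_times : ∃ T : ℕ → ℕ, StrictMono T ∧ T 0 = 0 ∧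
    ∀ (Ω : Type u) (_ : MeasurableSpace Ω) (μ : Measure Ω) (_ : IsProbabilityMeasure μ)
      (X : ℕ → Ω → ℕ × ℕ),
      IsWalk μ (fun t x y => stepProb (1 / 2 + 4 / pars T t) x y) X →
      ∀ᵐ ω ∂μ, ∀ m : ℕ, ∀ᶠ t in atTop, m < (X t ω).1 + (X t ω).2 := by
  choose v ρ hρ0 hρ1 hv0 hv1 hanti hlim hstep using
    fun k : ℕ => exists_lyapunov (bias_gt k) (bias_le k)
  -- the bound at the start of phase `k + 1`
  set ε : ℕ → ℝ := fun k => (1 - ρ (k + 1)) * v (k + 1) (k + 1) * (1 / 2) ^ k with hεdef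
  have hε : ∀ k, 0 < ε k := by
    intro k
    have h1 := hρ1 (k + 1)
    have h2 := hv0 (k + 1) (k + 1)
    have h3 : 0 < 1 - ρ (k + 1) := by linarith
    simp only [hεdef]
    positivity
  choose d C hC0 hC hd using exists_durations v ρ ε hρ0 hρ1 hv0 hv1 hanti hlim hε
  set T : ℕ → ℕ := fun k => ∑ i ∈ Finset.range k, (d i + 1) with hTdef
  have hTs : ∀ k, T (k + 1) = T k + (d k + 1) := fun k => Finset.sum_range_succ _ _
  have hT : StrictMono T := strictMono_nat_of_lt_succ fun k => by rw [hTs]; omega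
  have hT0 : T 0 = 0 := by simp [hTdef]
  refine ⟨T, hT, hT0, ?_⟩
  intro Ω _ μ _ X hX
  -- the expectation of the Lyapunov function of phase `k` at time `t`
  set E : ℕ → ℕ → ENNReal := fun k t => ∫⁻ ω, ENNReal.ofReal (v k ((X t ω).1 + (X t ω).2)) ∂μ
    with hE
  have hF0 : ∀ (t : ℕ) (x : ℕ × ℕ), 0 ≤ (fun (t : ℕ) (_ : ℕ × ℕ) => 1 / 2 + 4 / pars T t) t x := by
    intro t _
    have : 0 < pars T t := by unfold pars; positivity
    positivity
  have hF1 : ∀ (t : ℕ) (x : ℕ × ℕ), (fun (t : ℕ) (_ : ℕ × ℕ) => 1 / 2 + 4 / pars T t) t x ≤ 1 :=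
    fun t _ => bias_le (phase T (t - 1))
  have hEstep : ∀ k t, T k ≤ t → t < T (k + 1) → E k (t + 1) ≤ ENNReal.ofReal (ρ k) * E k t := by
    intro k t h1 h2
    have hph : phase T t = k := phase_eq hT hT0 h1 h2
    have hpar : 1 / 2 + 4 / pars T (t + 1) = bias k := by
      unfold pars bias
      rw [Nat.add_sub_cancel, hph]
    apply hX.lintegral_step hF0 hF1 t (fun x => v k (x.1 + x.2)) (fun x => (hv0 k _).le)
      (ρ k) (hρ0 k).le
    intro x hx
    simp only [hpar]
    exact hstep k x hx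
  have hEpow : ∀ k s, s ≤ d k + 1 → E k (T k + s) ≤ ENNReal.ofReal (ρ k ^ s) * E k (T k) := by
    intro k s
    induction s with
    | zero => intro _; simp
    | succ s ih =>
      intro hs
      calc E k (T k + (s + 1)) ≤ ENNReal.ofReal (ρ k) * E k (T k + s) :=
            hEstep k (T k + s) (by omega) (by rw [hTs]; omega)
        _ ≤ ENNReal.ofReal (ρ k) * (ENNReal.ofReal (ρ k ^ s) * E k (T k)) := by
            gcongr
            exact ih (by omega)
        _ = ENNReal.ofReal (ρ k ^ (s + 1)) * E k (T k) := by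
            rw [← mul_assoc, ← ENNReal.ofReal_mul (hρ0 k).le, pow_succ']
  have hE1 : ∀ k t, E k t ≤ 1 := by
    intro k t
    calc E k t ≤ ∫⁻ _, 1 ∂μ := by
          apply lintegral_mono
          intro ω
          simp only
          rw [← ENNReal.ofReal_one]
          exact ENNReal.ofReal_le_ofReal (hv1 k _)
      _ = 1 := by simp
  -- the bound at the start of each phase
  have hstart : ∀ k, E (k + 1) (T (k + 1)) ≤ ENNReal.ofReal (ε k) := by
    intro k
    have h1 : E k (T (k + 1)) ≤ ENNReal.ofReal (ρ k ^ (d k + 1)) := by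
      rw [hTs]
      calc E k (T k + (d k + 1)) ≤ ENNReal.ofReal (ρ k ^ (d k + 1)) * E k (T k) :=
            hEpow k (d k + 1) le_rfl
        _ ≤ ENNReal.ofReal (ρ k ^ (d k + 1)) * 1 := by gcongr; exact hE1 k _
        _ = _ := mul_one _
    calc E (k + 1) (T (k + 1))
        ≤ ∫⁻ ω, (ENNReal.ofReal (ε k / 2) + ENNReal.ofReal (C k) *
            ENNReal.ofReal (v k ((X (T (k + 1)) ω).1 + (X (T (k + 1)) ω).2))) ∂μ := by
          apply lintegral_mono
          intro ω
          simp only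
          rw [← ENNReal.ofReal_mul (hC0 k).le, ← ENNReal.ofReal_add (by linarith [hε k])
            (mul_nonneg (hC0 k).le (hv0 k _).le)]
          exact ENNReal.ofReal_le_ofReal (hC k _)
      _ = ENNReal.ofReal (ε k / 2) + ENNReal.ofReal (C k) * E k (T (k + 1)) := by
          rw [lintegral_add_left measurable_const, lintegral_const_mul' _ _ ENNReal.ofReal_ne_top]
          simp [hE]
      _ ≤ ENNReal.ofReal (ε k / 2) + ENNReal.ofReal (C k) * ENNReal.ofReal (ρ k ^ (d k + 1)) := by
          gcongr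
      _ = ENNReal.ofReal (ε k / 2 + C k * ρ k ^ (d k + 1)) := by
          rw [← ENNReal.ofReal_mul (hC0 k).le, ← ENNReal.ofReal_add (by linarith [hε k])
            (mul_nonneg (hC0 k).le (pow_nonneg (hρ0 k).le _))]
      _ ≤ ENNReal.ofReal (ε k) := by
          apply ENNReal.ofReal_le_ofReal
          have := hd k
          linarith
  -- the bad events
  set bad : ℕ → Set Ω := fun k =>
    ⋃ s ∈ Finset.range (d (k + 1) + 1), {ω | (X (T (k + 1) + s) ω).1 + (X (T (k + 1) + s) ω).2
      ≤ k + 1} with hbad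
  have hmarkov : ∀ k s, s ≤ d (k + 1) + 1 →
      μ {ω | (X (T (k + 1) + s) ω).1 + (X (T (k + 1) + s) ω).2 ≤ k + 1}
        ≤ ENNReal.ofReal (ρ (k + 1) ^ s * (ε k / v (k + 1) (k + 1))) := by
    intro k s hs
    have hvp := hv0 (k + 1) (k + 1)
    have h1 : E (k + 1) (T (k + 1) + s) ≤ ENNReal.ofReal (ρ (k + 1) ^ s * ε k) := by
      calc E (k + 1) (T (k + 1) + s) ≤ ENNReal.ofReal (ρ (k + 1) ^ s) * E (k + 1) (T (k + 1)) :=
            hEpow (k + 1) s hs
        _ ≤ ENNReal.ofReal (ρ (k + 1) ^ s) * ENNReal.ofReal (ε k) := by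
            gcongr
            exact hstart k
        _ = _ := by rw [← ENNReal.ofReal_mul (pow_nonneg (hρ0 _).le _)]
    have h2 : ENNReal.ofReal (v (k + 1) (k + 1)) *
        μ {ω | ENNReal.ofReal (v (k + 1) (k + 1)) ≤ ENNReal.ofReal
          (v (k + 1) ((X (T (k + 1) + s) ω).1 + (X (T (k + 1) + s) ω).2))}
        ≤ E (k + 1) (T (k + 1) + s) := by
      apply mul_meas_ge_le_lintegral₀
      have : Measurable (fun x : ℕ × ℕ => ENNReal.ofReal (v (k + 1) (x.1 + x.2))) :=
        measurable_of_countable _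
      exact (this.comp (hX.measurable _)).aemeasurable
    have h3 : {ω | (X (T (k + 1) + s) ω).1 + (X (T (k + 1) + s) ω).2 ≤ k + 1} ⊆
        {ω | ENNReal.ofReal (v (k + 1) (k + 1)) ≤ ENNReal.ofReal
          (v (k + 1) ((X (T (k + 1) + s) ω).1 + (X (T (k + 1) + s) ω).2))} := by
      intro ω hω
      exact ENNReal.ofReal_le_ofReal (hanti (k + 1) hω)
    have h4 := (mul_le_mul_right (measure_mono h3) _).trans (h2.trans h1)
    rw [mul_div_assoc', ENNReal.ofReal_div_of_pos hvp]
    rw [ENNReal.le_div_iff_mul_le]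
    · rw [mul_comm]
      exact h4
    · left
      exact (ENNReal.ofReal_pos.2 hvp).ne'
    · left
      exact ENNReal.ofReal_ne_top
  have hbadle : ∀ k, μ (bad k) ≤ ENNReal.ofReal ((1 / 2) ^ k) := by
    intro k
    have hvp := hv0 (k + 1) (k + 1)
    have hr0 := hρ0 (k + 1)
    have hr1 := hρ1 (k + 1)
    calc μ (bad k) ≤ ∑ s ∈ Finset.range (d (k + 1) + 1),
          μ {ω | (X (T (k + 1) + s) ω).1 + (X (T (k + 1) + s) ω).2 ≤ k + 1} :=
          measure_biUnion_finset_le _ _
      _ ≤ ∑ s ∈ Finset.range (d (k + 1) + 1),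
          ENNReal.ofReal (ρ (k + 1) ^ s * (ε k / v (k + 1) (k + 1))) := by
          apply Finset.sum_le_sum
          intro s hs
          exact hmarkov k s (by have := Finset.mem_range.1 hs; omega)
      _ = ENNReal.ofReal (∑ s ∈ Finset.range (d (k + 1) + 1),
          ρ (k + 1) ^ s * (ε k / v (k + 1) (k + 1))) := by
          rw [ENNReal.ofReal_sum_of_nonneg]
          intro s _
          have := hε k
          positivity
      _ ≤ ENNReal.ofReal ((1 / 2) ^ k) := by
          apply ENNReal.ofReal_le_ofReal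
          rw [← Finset.sum_mul]
          have hgeom : ∑ s ∈ Finset.range (d (k + 1) + 1), ρ (k + 1) ^ s ≤ (1 - ρ (k + 1))⁻¹ := by
            rw [← tsum_geometric_of_lt_one hr0.le hr1]
            exact (summable_geometric_of_lt_one hr0.le hr1).sum_le_tsum _
              (fun i _ => by positivity)
          have hdiv : ε k / v (k + 1) (k + 1) = (1 - ρ (k + 1)) * (1 / 2) ^ k := by
            simp only [hεdef]
            field_simp
          rw [hdiv]
          have h1r : 0 < 1 - ρ (k + 1) := by linarith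
          calc (∑ s ∈ Finset.range (d (k + 1) + 1), ρ (k + 1) ^ s)
                * ((1 - ρ (k + 1)) * (1 / 2) ^ k)
              ≤ (1 - ρ (k + 1))⁻¹ * ((1 - ρ (k + 1)) * (1 / 2) ^ k) := by
                apply mul_le_mul_of_nonneg_right hgeom
                positivity
            _ = (1 / 2) ^ k := by
                rw [← mul_assoc, inv_mul_cancel₀ h1r.ne', one_mul]
  have hsum : ∑' k, μ (bad k) ≠ ⊤ := by
    apply ne_top_of_le_ne_top _ (ENNReal.tsum_le_tsum hbadle)
    rw [← ENNReal.ofReal_tsum_of_nonneg]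
    · exact ENNReal.ofReal_ne_top
    · intro n
      positivity
    · exact summable_geometric_two
  filter_upwards [ae_eventually_notMem hsum] with ω hω
  intro m
  obtain ⟨N, hN⟩ := eventually_atTop.1 hω
  filter_upwards [eventually_ge_atTop (T (max N m + 1))] with t ht
  have hp1 := phase_le hT0 t
  have hp2 := lt_phase hT t
  have hp3 : max N m + 1 < phase T t + 1 := hT.lt_iff_lt.1 (lt_of_le_of_lt ht hp2)
  obtain ⟨k, hk⟩ : ∃ k, phase T t = k + 1 := ⟨phase T t - 1, by omega⟩
  rw [hk] at hp1 hp2 hp3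
  have hNk : N ≤ k := by
    have := le_max_left N m
    omega
  have hmk : m ≤ k := by
    have := le_max_right N m
    omega
  have hnot := hN k hNk
  by_contra hcon
  apply hnot
  rw [hTs] at hp2
  simp only [hbad, Set.mem_iUnion]
  refine ⟨t - T (k + 1), Finset.mem_range.2 (by omega), ?_⟩
  have e : T (k + 1) + (t - T (k + 1)) = t := by omega
  rw [e]
  show (X t ω).1 + (X t ω).2 ≤ k + 1
  omega

end Pool.Agent.W_MP_1da119_pr
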