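import Pool.Agent.W_MP_1da119_pr.Basic

set_option autoImplicit false

open MeasureTheory Filter Topology

namespace Pool.Agent.W_MP_1da119_pr

/-- The increments of the Lyapunov function. -/
noncomputable def incr (r : ℝ) (n : ℕ) : ℝ :=
  r ^ n * ((n : ℝ) * ((n : ℝ) + 1) * ((n : ℝ) + 2) * ((n : ℝ) + 3))

lemma incr_nonneg {r : ℝ} (hr : 0 ≤ r) (n : ℕ) : 0 ≤ incr r n := by
  unfold incr
  positivity

lemma incr_pos {r : ℝ} (hr : 0 < r) {n : ℕ} (hn : 1 ≤ n) : 0 < incr r n := by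
  unfold incr
  have : (0 : ℝ) < n := by exact_mod_cast hn
  positivity

lemma summable_incr {r : ℝ} (hr : 0 < r) (hr1 : r < 1) : Summable (incr r) := by
  have hn : ‖r‖ < 1 := by
    rw [Real.norm_eq_abs, abs_of_pos hr]
    exact hr1
  have h4 := summable_pow_mul_geometric_of_norm_lt_one 4 hn
  have h3 := (summable_pow_mul_geometric_of_norm_lt_one 3 hn).mul_left 6
  have h2 := (summable_pow_mul_geometric_of_norm_lt_one 2 hn).mul_left 11
  have h1 := (summable_pow_mul_geometric_of_norm_lt_one 1 hn).mul_left 6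
  refine (((h4.add h3).add h2).add h1).congr ?_
  intro n
  unfold incr
  ring

/-- The Lyapunov function. -/
noncomputable def lyap (r : ℝ) (n : ℕ) : ℝ := ∑' k, incr r (k + n)

lemma summable_incr_add {r : ℝ} (hr : 0 < r) (hr1 : r < 1) (n : ℕ) :
    Summable (fun k => incr r (k + n)) :=
  (summable_nat_add_iff n).2 (summable_incr hr hr1)

lemma lyap_sub {r : ℝ} (hr : 0 < r) (hr1 : r < 1) (n : ℕ) :
    lyap r n = incr r n + lyap r (n + 1) := by
  unfold lyap
  rw [(summable_incr_add hr hr1 n).tsum_eq_zero_add, zero_add]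
  congr 1
  apply tsum_congr
  intro k
  congr 1
  omega

lemma lyap_antitone {r : ℝ} (hr : 0 < r) (hr1 : r < 1) : Antitone (lyap r) := by
  apply antitone_nat_of_succ_le
  intro n
  have h1 := lyap_sub hr hr1 n
  have h2 := incr_nonneg hr.le n
  linarith

lemma lyap_pos {r : ℝ} (hr : 0 < r) (hr1 : r < 1) (n : ℕ) : 0 < lyap r n :=
  (summable_incr_add hr hr1 n).tsum_pos (fun k => incr_nonneg hr.le _) 1
    (incr_pos hr (by omega))

lemma lyap_tendsto (r : ℝ) : Tendsto (lyap r) atTop (𝓝 0) := tendsto_sum_nat_add (incr r)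

lemma incr_add_le {r : ℝ} (hr : 0 < r) {n : ℕ} (hn : 1 ≤ n) (k : ℕ) :
    incr r (k + n) ≤ (r ^ k * (1 + (k : ℝ)) ^ 4) * incr r n := by
  unfold incr
  have hn1 : (1 : ℝ) ≤ n := by exact_mod_cast hn
  have hk0 : (0 : ℝ) ≤ k := by positivity
  have hstep : ∀ c : ℝ, 0 ≤ c → ((k + n : ℕ) : ℝ) + c ≤ (1 + (k : ℝ)) * ((n : ℝ) + c) := by
    intro c hc
    push_cast
    nlinarith [mul_nonneg hk0 (by linarith : (0 : ℝ) ≤ (n : ℝ) - 1), mul_nonneg hk0 hc]
  have e0 := hstep 0 le_rfl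
  rw [add_zero, add_zero] at e0
  have e1 := hstep 1 (by norm_num)
  have e2 := hstep 2 (by norm_num)
  have e3 := hstep 3 (by norm_num)
  have hprod : ((k + n : ℕ) : ℝ) * (((k + n : ℕ) : ℝ) + 1) * (((k + n : ℕ) : ℝ) + 2)
      * (((k + n : ℕ) : ℝ) + 3) ≤ ((1 + (k : ℝ)) * (n : ℝ)) * ((1 + (k : ℝ)) * ((n : ℝ) + 1))
      * ((1 + (k : ℝ)) * ((n : ℝ) + 2)) * ((1 + (k : ℝ)) * ((n : ℝ) + 3)) := by
    gcongr
  calc r ^ (k + n) * (((k + n : ℕ) : ℝ) * (((k + n : ℕ) : ℝ) + 1) * (((k + n : ℕ) : ℝ) + 2)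
        * (((k + n : ℕ) : ℝ) + 3))
      ≤ r ^ (k + n) * (((1 + (k : ℝ)) * (n : ℝ)) * ((1 + (k : ℝ)) * ((n : ℝ) + 1))
        * ((1 + (k : ℝ)) * ((n : ℝ) + 2)) * ((1 + (k : ℝ)) * ((n : ℝ) + 3))) := by gcongr
    _ = (r ^ k * (1 + (k : ℝ)) ^ 4) * (r ^ n * ((n : ℝ) * ((n : ℝ) + 1) * ((n : ℝ) + 2)
        * ((n : ℝ) + 3))) := by rw [pow_add]; ring

lemma summable_factor {r : ℝ} (hr : 0 < r) (hr1 : r < 1) :
    Summable (fun k : ℕ => r ^ k * (1 + (k : ℝ)) ^ 4) := by
  have hn : ‖r‖ < 1 := by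
    rw [Real.norm_eq_abs, abs_of_pos hr]
    exact hr1
  have h4 := summable_pow_mul_geometric_of_norm_lt_one 4 hn
  have h3 := (summable_pow_mul_geometric_of_norm_lt_one 3 hn).mul_left 4
  have h2 := (summable_pow_mul_geometric_of_norm_lt_one 2 hn).mul_left 6
  have h1 := (summable_pow_mul_geometric_of_norm_lt_one 1 hn).mul_left 4
  have h0 := (summable_pow_mul_geometric_of_norm_lt_one 0 hn)
  refine ((((h4.add h3).add h2).add h1).add h0).congr ?_
  intro n
  ring

/-- The constant comparing the Lyapunov function with its increments. -/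
noncomputable def cst (r : ℝ) : ℝ := ∑' k : ℕ, r ^ k * (1 + (k : ℝ)) ^ 4

lemma one_le_cst {r : ℝ} (hr : 0 < r) (hr1 : r < 1) : 1 ≤ cst r := by
  have h := (summable_factor hr hr1).le_tsum 0 (fun k _ => by positivity)
  have h2 : r ^ 0 * (1 + ((0 : ℕ) : ℝ)) ^ 4 = 1 := by simp
  unfold cst
  linarith

lemma lyap_le {r : ℝ} (hr : 0 < r) (hr1 : r < 1) {n : ℕ} (hn : 1 ≤ n) :
    lyap r n ≤ cst r * incr r n := by
  unfold lyap cst
  rw [← tsum_mul_right]
  exact (summable_incr_add hr hr1 n).tsum_le_tsum (incr_add_le hr hn)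
    ((summable_factor hr hr1).mul_right _)

lemma lyap_step {f : ℝ} (hf : 1 / 2 < f) (hf1 : f ≤ 1) {r : ℝ} (hr : (1 - f) / f < r)
    (hr1 : r < 1) {x : ℕ × ℕ} (hx : x ∈ stair) :
    f * accept x (forward x) * lyap r ((forward x).1 + (forward x).2)
      + (1 - f) * accept x (backward x) * lyap r ((backward x).1 + (backward x).2)
      + (f * (1 - accept x (forward x)) + (1 - f) * (1 - accept x (backward x)))
        * lyap r (x.1 + x.2)
      ≤ (1 - (1 - (1 - f) / f / r) / (10 * cst r)) * lyap r (x.1 + x.2) := by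
  have hκ : 0 ≤ (1 - f) / f := div_nonneg (by linarith) (by linarith)
  have hr0 : 0 < r := lt_of_le_of_lt hκ hr
  have hf0 : 0 < f := by linarith
  set θ : ℝ := (1 - f) / f / r with hθ
  have hθ1 : θ < 1 := by
    rw [hθ, div_lt_one hr0]
    exact hr
  have hθ0 : 0 ≤ θ := by positivity
  have hN : 2 ≤ x.1 + x.2 := by
    obtain ⟨h1, h⟩ := hx
    omega
  obtain ⟨m, hm⟩ : ∃ m, x.1 + x.2 = m + 2 := ⟨x.1 + x.2 - 2, by omega⟩
  have hfw : (forward x).1 + (forward x).2 = m + 3 := by rw [sum_forward, hm]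
  have hbw : (backward x).1 + (backward x).2 = m + 1 := by
    have := sum_backward hx
    omega
  rw [hfw, hbw, hm]
  have l1 := lyap_sub hr0 hr1 (m + 1)
  have l2 := lyap_sub hr0 hr1 (m + 2)
  rw [show m + 1 + 1 = m + 2 from rfl] at l1
  rw [show m + 2 + 1 = m + 3 from rfl] at l2
  have hcmp := accept_compare hx
  have hge := accept_forward_ge hx
  have hxm : ((x.1 : ℝ) + x.2) = m + 2 := by exact_mod_cast hm
  rw [hxm] at hcmp
  set A := accept x (forward x)
  set B := accept x (backward x)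
  have hB0 : 0 ≤ B := accept_nonneg _ _
  -- the drift inequality
  have hkey : (1 - f) * B * incr r (m + 1) ≤ θ * (f * A * incr r (m + 2)) := by
    have e : θ * (f * A * incr r (m + 2)) = (1 - f) * A * (r ^ (m + 1) *
        (((m : ℝ) + 2) * ((m : ℝ) + 3) * ((m : ℝ) + 4) * ((m : ℝ) + 5))) := by
      rw [hθ]
      unfold incr
      push_cast
      field_simp
      ring
    rw [e]
    unfold incr
    push_cast
    have h1f : 0 ≤ 1 - f := by linarith
    have : B * ((m : ℝ) + 1) ≤ A * ((m : ℝ) + 5) := by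
      have e1 : ((m : ℝ) + 2 - 1) = m + 1 := by ring
      have e2 : ((m : ℝ) + 2 + 3) = m + 5 := by ring
      rw [e1, e2] at hcmp
      exact hcmp
    calc (1 - f) * B * (r ^ (m + 1) * (((m : ℝ) + 1) * ((m : ℝ) + 1 + 1) * ((m : ℝ) + 1 + 2)
          * ((m : ℝ) + 1 + 3)))
        = (1 - f) * r ^ (m + 1) * (((m : ℝ) + 2) * ((m : ℝ) + 3) * ((m : ℝ) + 4))
          * (B * ((m : ℝ) + 1)) := by ring
      _ ≤ (1 - f) * r ^ (m + 1) * (((m : ℝ) + 2) * ((m : ℝ) + 3) * ((m : ℝ) + 4))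
          * (A * ((m : ℝ) + 5)) := by
          apply mul_le_mul_of_nonneg_left this
          positivity
      _ = _ := by ring
  have hD0 : 0 < incr r (m + 2) := incr_pos hr0 (by omega)
  have hV : lyap r (m + 2) ≤ cst r * incr r (m + 2) := lyap_le hr0 hr1 (by omega)
  have hC := one_le_cst hr0 hr1
  have hC0 : 0 < cst r := by linarith
  have hfA : 1 / 10 ≤ f * A := by nlinarith
  have h5 : (1 - θ) / (10 * cst r) * lyap r (m + 2) ≤ (1 - θ) * (f * A * incr r (m + 2)) := by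
    calc (1 - θ) / (10 * cst r) * lyap r (m + 2)
        ≤ (1 - θ) / (10 * cst r) * (cst r * incr r (m + 2)) := by
          apply mul_le_mul_of_nonneg_left hV
          apply div_nonneg <;> linarith
      _ = (1 - θ) * (1 / 10 * incr r (m + 2)) := by field_simp
      _ ≤ (1 - θ) * (f * A * incr r (m + 2)) := by
          apply mul_le_mul_of_nonneg_left _ (by linarith)
          apply mul_le_mul_of_nonneg_right hfA hD0.le
  have l3 : lyap r (m + 3) = lyap r (m + 2) - incr r (m + 2) := by linarith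
  have e : f * A * lyap r (m + 3) + (1 - f) * B * lyap r (m + 1)
      + (f * (1 - A) + (1 - f) * (1 - B)) * lyap r (m + 2)
      = lyap r (m + 2) - f * A * incr r (m + 2) + (1 - f) * B * incr r (m + 1) := by
    rw [l1, l3]
    ring
  rw [e]
  have e2 : (1 - (1 - θ) / (10 * cst r)) * lyap r (m + 2)
      = lyap r (m + 2) - (1 - θ) / (10 * cst r) * lyap r (m + 2) := by ring
  rw [e2]
  linarith

/-- For every bias there is a Lyapunov function with geometric decay. -/
lemma exists_lyapunov {f : ℝ} (hf : 1 / 2 < f) (hf1 : f ≤ 1) :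
    ∃ (v : ℕ → ℝ) (ρ : ℝ), 0 < ρ ∧ ρ < 1 ∧ (∀ n, 0 < v n) ∧ (∀ n, v n ≤ 1) ∧ Antitone v ∧
      Tendsto v atTop (𝓝 0) ∧ ∀ x ∈ stair,
        f * accept x (forward x) * v ((forward x).1 + (forward x).2)
          + (1 - f) * accept x (backward x) * v ((backward x).1 + (backward x).2)
          + (f * (1 - accept x (forward x)) + (1 - f) * (1 - accept x (backward x)))
            * v (x.1 + x.2) ≤ ρ * v (x.1 + x.2) := by
  have hf0 : 0 < f := by linarith
  have hκ : 0 ≤ (1 - f) / f := div_nonneg (by linarith) (by linarith)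
  have hκ1 : (1 - f) / f < 1 := by
    rw [div_lt_one hf0]
    linarith
  obtain ⟨r, hr, hr1⟩ := exists_between hκ1
  have hr0 : 0 < r := lt_of_le_of_lt hκ hr
  have hθ1 : (1 - f) / f / r < 1 := by
    rw [div_lt_one hr0]
    exact hr
  have hθ0 : 0 ≤ (1 - f) / f / r := by positivity
  have hC := one_le_cst hr0 hr1
  have hL0 := lyap_pos hr0 hr1 0
  refine ⟨fun n => lyap r n / lyap r 0, 1 - (1 - (1 - f) / f / r) / (10 * cst r), ?_, ?_, ?_, ?_,
    ?_, ?_, ?_⟩
  · have : (1 - (1 - f) / f / r) / (10 * cst r) ≤ 1 / 10 := by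
      rw [div_le_div_iff₀ (by positivity) (by norm_num)]
      nlinarith
    linarith
  · have : 0 < (1 - (1 - f) / f / r) / (10 * cst r) := by
      apply div_pos <;> linarith
    linarith
  · intro n
    exact div_pos (lyap_pos hr0 hr1 n) hL0
  · intro n
    rw [div_le_one hL0]
    exact lyap_antitone hr0 hr1 (Nat.zero_le n)
  · intro m n hmn
    exact div_le_div_of_nonneg_right (lyap_antitone hr0 hr1 hmn) hL0.le
  · simpa using (lyap_tendsto r).div_const (lyap r 0)
  · intro x hx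
    have h := lyap_step hf hf1 hr hr1 hx
    have h2 := div_le_div_of_nonneg_right h hL0.le
    calc _ = _ := ?_
      _ ≤ _ := h2
      _ = _ := ?_
    · ring
    · ring

end Pool.Agent.W_MP_1da119_pr
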