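import Pool.Agent.W_MP_1da119_pr.Marginal

set_option autoImplicit false

open MeasureTheory Filter Topology

namespace Pool.Agent.W_MP_1da119_pr

universe u

lemma backward_forward {x : ℕ × ℕ} (hx : x ∈ stair) : backward (forward x) = x := by
  obtain ⟨i, j⟩ := x
  obtain ⟨h1, h | h⟩ := hx
  · simp only at h h1
    subst h
    rw [forward_diag, backward_off]
  · simp only at h h1
    subst h
    rw [forward_off, backward_diag]
    simp

lemma forward_backward {x : ℕ × ℕ} (hx : x ∈ stair) (hx1 : x ≠ (1, 1)) :
    forward (backward x) = x := by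
  obtain ⟨i, j⟩ := x
  obtain ⟨h1, h | h⟩ := hx
  · simp only at h h1
    subst h
    obtain ⟨k, rfl⟩ : ∃ k, i = k + 1 := ⟨i - 1, by omega⟩
    rw [backward_diag]
    simp only [Nat.add_sub_cancel]
    rw [forward_off]
  · simp only at h h1
    subst h
    rw [backward_off, forward_diag]

/-- The forward probabilities of the literal text, with `p = 1 / 2 + 4 / a`. -/
def litProb (p : ℝ) (x : ℕ × ℕ) : ℝ := if x.1 = x.2 then p else 1 - p

lemma litProb_forward (p : ℝ) {x : ℕ × ℕ} (hx : x ∈ stair) :
    1 - litProb p (forward x) = litProb p x := by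
  obtain ⟨i, j⟩ := x
  obtain ⟨h1, h | h⟩ := hx
  · simp only at h h1
    subst h
    rw [forward_diag]
    simp [litProb]
  · simp only at h h1
    subst h
    rw [forward_off]
    simp [litProb]

lemma litProb_backward (p : ℝ) {x : ℕ × ℕ} (hx : x ∈ stair) (hx1 : x ≠ (1, 1)) :
    litProb p (backward x) = 1 - litProb p x := by
  have h := litProb_forward p (backward_mem hx hx1)
  rw [forward_backward hx hx1] at h
  exact h.symm

lemma target_mul_accept (x y : ℕ × ℕ) :
    target x * accept x y = target y * accept y x := by
  unfold accept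
  rw [add_comm (target x) (target y)]
  ring

/-- Detailed balance for the literal walk. -/
lemma detailed_balance (p : ℝ) {x y : ℕ × ℕ} (hx : x ∈ stair) (hy : y ∈ stair) :
    target x * stepProb (litProb p x) x y = target y * stepProb (litProb p y) y x := by
  by_cases hxy : y = x
  · rw [hxy]
  have hyx : ¬ x = y := fun h => hxy h.symm
  unfold stepProb
  rw [if_neg hxy, if_neg hyx]
  have i1 : y = forward x ↔ x = backward y := by
    constructor
    · rintro rfl
      exact (backward_forward hx).symm
    · intro h
      have h1 : y ≠ (1, 1) := by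
        rintro rfl
        rw [h, backward_diag] at hx
        have := hx.1
        simp at this
      rw [h, forward_backward hy h1]
  have i2 : y = backward x ↔ x = forward y := by
    constructor
    · intro h
      have h1 : x ≠ (1, 1) := by
        rintro rfl
        rw [h, backward_diag] at hy
        have := hy.1
        simp at this
      rw [h, forward_backward hx h1]
    · rintro rfl
      exact (backward_forward hy).symm
  by_cases c1 : y = forward x
  · have c1' := i1.1 c1
    rw [if_pos c1, if_pos c1']
    by_cases c2 : y = backward x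
    · have c2' := i2.1 c2
      exfalso
      have e1 := sum_forward x
      have e2 := sum_backward hx
      rw [← c1] at e1
      rw [← c2] at e2
      omega
    · have c2' : ¬ x = forward y := fun h => c2 (i2.2 h)
      rw [if_neg c2, if_neg c2', ← c1, ← c1']
      have h1 : 1 - litProb p y = litProb p x := by
        rw [c1]
        exact litProb_forward p hx
      rw [h1]
      have := target_mul_accept x y
      linear_combination (litProb p x) * this
  · have c1' : ¬ x = backward y := fun h => c1 (i1.2 h)
    rw [if_neg c1, if_neg c1']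
    by_cases c2 : y = backward x
    · have c2' := i2.1 c2
      rw [if_pos c2, if_pos c2', ← c2, ← c2']
      have h1 : 1 - litProb p x = litProb p y := by
        rw [c2']
        exact litProb_forward p hy
      rw [h1]
      have := target_mul_accept x y
      linear_combination (litProb p y) * this
    · have c2' : ¬ x = forward y := fun h => c2 (i2.2 h)
      rw [if_neg c2, if_neg c2']
      ring

lemma litProb_nonneg {p : ℝ} (h0 : 0 ≤ p) (h1 : p ≤ 1) (x : ℕ × ℕ) : 0 ≤ litProb p x := by
  unfold litProb
  split_ifs <;> linarith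

lemma litProb_le_one {p : ℝ} (h0 : 0 ≤ p) (h1 : p ≤ 1) (x : ℕ × ℕ) : litProb p x ≤ 1 := by
  unfold litProb
  split_ifs <;> linarith

lemma tsum_stepProb {f : ℝ} (h0 : 0 ≤ f) (h1 : f ≤ 1) (x : ℕ × ℕ) :
    ∑' y, ENNReal.ofReal (stepProb f x y) = 1 := by
  have h := tsum_stepProb_mul h0 h1 x (fun _ => 1)
  simp only [mul_one] at h
  rw [h]
  have b3 : 0 ≤ 1 - f := by linarith
  have hs := stay_nonneg h0 h1 x
  have a1 := accept_nonneg x (forward x)
  have a2 := accept_nonneg x (backward x)
  rw [← ENNReal.ofReal_add (by positivity) (by positivity),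
    ← ENNReal.ofReal_add (by positivity) hs, ← ENNReal.ofReal_one]
  congr 1
  ring

variable {Ω : Type u} [MeasurableSpace Ω] {μ : Measure Ω} {X : ℕ → Ω → ℕ × ℕ}

/-- The law of the literal walk at each time is at most a constant times the target. -/
lemma IsWalk.le_target [IsProbabilityMeasure μ] {p : ℕ → ℝ} (hp0 : ∀ t, 0 ≤ p (t + 1))
    (hp1 : ∀ t, p (t + 1) ≤ 1)
    (h : IsWalk μ (fun t x y => stepProb (litProb (p t) x) x y) X) (t : ℕ) (x : ℕ × ℕ) :
    μ {ω | X t ω = x} ≤ ENNReal.ofReal (target x / target (1, 1)) := by
  have h11 : (1, 1) ∈ stair := ⟨le_rfl, Or.inl rfl⟩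
  have hpos := target_pos h11
  induction t generalizing x with
  | zero =>
    by_cases hx : x = (1, 1)
    · rw [hx, div_self hpos.ne', ENNReal.ofReal_one]
      exact prob_le_one
    · have : μ {ω | X 0 ω = x} = 0 := by
        refine measure_mono_null ?_ (ae_iff.1 h.start)
        intro ω hω hω1
        exact hx ((show X 0 ω = x from hω).symm.trans hω1)
      rw [this]
      exact zero_le
  | succ t ih =>
    by_cases hx : x ∈ stair
    · rw [h.succ t x]
      calc ∑' y, μ {ω | X t ω = y} * ENNReal.ofReal (stepProb (litProb (p (t + 1)) y) y x)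
          ≤ ∑' y, ENNReal.ofReal (target x / target (1, 1))
              * ENNReal.ofReal (stepProb (litProb (p (t + 1)) x) x y) := by
            apply ENNReal.tsum_le_tsum
            intro y
            by_cases hy : y ∈ stair
            · calc μ {ω | X t ω = y} * ENNReal.ofReal (stepProb (litProb (p (t + 1)) y) y x)
                  ≤ ENNReal.ofReal (target y / target (1, 1))
                      * ENNReal.ofReal (stepProb (litProb (p (t + 1)) y) y x) := by
                    gcongr
                    exact ih y
                _ = ENNReal.ofReal (target x / target (1, 1))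
                      * ENNReal.ofReal (stepProb (litProb (p (t + 1)) x) x y) := by
                    rw [← ENNReal.ofReal_mul (div_nonneg (target_nonneg _) hpos.le),
                      ← ENNReal.ofReal_mul (div_nonneg (target_nonneg _) hpos.le)]
                    congr 1
                    have := detailed_balance (p (t + 1)) hx hy
                    rw [div_mul_eq_mul_div, div_mul_eq_mul_div, this]
            · rw [h.notMem (F := fun t x => litProb (p t) x) t hy]
              simp
        _ = ENNReal.ofReal (target x / target (1, 1)) := by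
            rw [ENNReal.tsum_mul_left,
              tsum_stepProb (litProb_nonneg (hp0 t) (hp1 t) x) (litProb_le_one (hp0 t) (hp1 t) x),
              mul_one]
    · rw [h.notMem (F := fun t x => litProb (p t) x) (t + 1) hx]
      exact zero_le

lemma IsWalk.not_tendsto [IsProbabilityMeasure μ] {p : ℕ → ℝ} (hp0 : ∀ t, 0 ≤ p (t + 1))
    (hp1 : ∀ t, p (t + 1) ≤ 1)
    (h : IsWalk μ (fun t x y => stepProb (litProb (p t) x) x y) X) :
    ∀ᵐ ω ∂μ, ¬ Tendsto (fun t => X t ω) atTop cofinite := by
  set c : ℕ × ℕ → ENNReal := fun x => ENNReal.ofReal (target x / target (1, 1)) with hc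
  have hpos := target_pos (show (1, 1) ∈ stair from ⟨le_rfl, Or.inl rfl⟩)
  have hcsum : ∑' x, c x ≠ ⊤ := by
    rw [hc, ← ENNReal.ofReal_tsum_of_nonneg (fun x => div_nonneg (target_nonneg _) hpos.le)
      (summable_target.div_const _)]
    exact ENNReal.ofReal_ne_top
  have hbound : ∀ s : Finset (ℕ × ℕ), μ {ω | Tendsto (fun t => X t ω) atTop cofinite}
      ≤ ∑' x : {x // x ∉ s}, c x := by
    intro s
    have hsub : {ω | Tendsto (fun t => X t ω) atTop cofinite}
        ⊆ ⋃ N : ℕ, ⋂ t : ℕ, ⋂ _ : N ≤ t, {ω | X t ω ∉ s} := by
      intro ω hω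
      have h1 : ∀ᶠ x in cofinite, x ∉ s := s.finite_toSet.eventually_cofinite_notMem
      have h2 := (show Tendsto (fun t => X t ω) atTop cofinite from hω).eventually h1
      obtain ⟨N, hN⟩ := eventually_atTop.1 h2
      simp only [Set.mem_iUnion, Set.mem_iInter]
      exact ⟨N, fun t ht => hN t ht⟩
    have hmono : Monotone (fun N : ℕ => ⋂ t : ℕ, ⋂ _ : N ≤ t, {ω | X t ω ∉ s}) := by
      intro N M hNM ω hω
      simp only [Set.mem_iInter] at hω ⊢
      exact fun t ht => hω t (le_trans hNM ht)
    refine (measure_mono hsub).trans ?_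
    rw [hmono.measure_iUnion]
    apply iSup_le
    intro N
    have h3 : (⋂ t : ℕ, ⋂ _ : N ≤ t, {ω | X t ω ∉ s}) ⊆ {ω | X N ω ∉ s} := by
      intro ω hω
      simp only [Set.mem_iInter] at hω
      exact hω N le_rfl
    refine (measure_mono h3).trans ?_
    have h4 : {ω | X N ω ∉ s} = ⋃ x : {x // x ∉ s}, {ω | X N ω = x} := by
      ext ω
      simp
    rw [h4]
    refine (measure_iUnion_le _).trans ?_
    apply ENNReal.tsum_le_tsum
    intro x
    exact h.le_target hp0 hp1 N x
  have hzero : μ {ω | Tendsto (fun t => X t ω) atTop cofinite} = 0 := by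
    have h5 := ENNReal.tendsto_tsum_compl_atTop_zero hcsum
    exact le_antisymm (ge_of_tendsto' h5 hbound) zero_le
  rw [ae_iff]
  simpa using hzero

end Pool.Agent.W_MP_1da119_pr
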